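import Pool.Agent.Lib.BrV.CSym
import Pool.Agent.Lib.BrV.CHigh

/-!
# `H^*(B_{2g+2}; Sym^k (V_{2g} ⊗ ℝ))` is concentrated in the `k + 1` degrees `2g+1-k, ..., 2g+1`

`Braid (2 * g + 1)` is the braid group on `2g+2` strands (Artin presentation with `2g+1`
generators `σ_0, ..., σ_{2g}`), and `SymV g k` is its representation on the homogeneous
polynomials of degree `k` in the classes `X_0, ..., X_{2g-1}` of the curves of the chain
`c_0, ..., c_{2g}`, where `σ_i` acts by the Dehn twist about `c_i`, that is, by the algebra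
automorphism induced by the transvection `x ↦ x + ω(c_i, x) c_i` of `H_1(Σ_g; ℝ)`.
-/

namespace Pool.Agent.Results.MP_97e538_al.TopDegrees

open Pool.Agent.Lib.BrSym

/-- For all `g ≥ 1` and `k ≥ 2`, the real vector space `H^i(B_{2g+2}; Sym^k (V_{2g} ⊗ ℝ))` is
zero unless `2g + 1 - k ≤ i ≤ 2g + 1`. -/
theorem result (g k i : ℕ) (hg : 1 ≤ g) (hk : 2 ≤ k)
    (hi : i + k < 2 * g + 1 ∨ 2 * g + 1 < i) :
    Module.rank ℝ (groupCohomology (SymV g k) i) = 0 :=
  hi.elim (fun h => BrV.vanishing g k i hg hk (Or.inr h))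
    (fun h => BrV.coh_high (2 * g + 1) i (SymV g k) h)

end Pool.Agent.Results.MP_97e538_al.TopDegrees
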